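import Mathlib

open Set Filter Topology
open scoped RealInnerProductSpace

namespace Pool.Agent.Results.MP_3684f0_an.ProjectionNormals

/-- `p` is the metric projection of `x` onto `C`: it lies in `C`, it is a nearest point, and it is
the only nearest point. -/
def IsProj {H : Type*} [NormedAddCommGroup H] (C : Set H) (x p : H) : Prop :=
  p ∈ C ∧ (∀ y ∈ C, ‖x - p‖ ≤ ‖x - y‖) ∧ ∀ q ∈ C, (∀ y ∈ C, ‖x - q‖ ≤ ‖x - y‖) → q = p

/-- `v` strongly exposes `p` in `C`: `p` maximises `⟪v, ·⟫` over `C` and every maximising sequence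
in `C` converges in norm to `p`. -/
def StronglyExposes {H : Type*} [NormedAddCommGroup H] [InnerProductSpace ℝ H]
    (C : Set H) (v p : H) : Prop :=
  p ∈ C ∧ ⟪v, p⟫ = sSup ((fun y => ⟪v, y⟫) '' C) ∧
    ∀ y : ℕ → H, (∀ k, y k ∈ C) →
      Tendsto (fun k => ⟪v, y k⟫) atTop (𝓝 (sSup ((fun y => ⟪v, y⟫) '' C))) →
      Tendsto y atTop (𝓝 p)

theorem key {H : Type*} [NormedAddCommGroup H] [InnerProductSpace ℝ H]
    (C : Set H) (x p : H) (hp : p ∈ C)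
    (h : ∀ y ∈ C, ⟪x - p, y - p⟫ ≤ - ((1 / 2 : ℝ) * ‖y - p‖ ^ 2)) :
    IsProj C x p ∧ StronglyExposes C (x - p) p := by
  have hsq : ∀ y ∈ C, ‖x - p‖ ^ 2 + 2 * ‖y - p‖ ^ 2 ≤ ‖x - y‖ ^ 2 := by
    intro y hy
    have h1 : x - y = (x - p) - (y - p) := by abel
    have h2 : ‖x - y‖ ^ 2 = ‖x - p‖ ^ 2 - 2 * ⟪x - p, y - p⟫ + ‖y - p‖ ^ 2 := by
      conv_lhs => rw [h1]
      exact norm_sub_sq_real _ _
    linarith [h y hy]
  have hmax : ∀ y ∈ C, ⟪x - p, y⟫ ≤ ⟪x - p, p⟫ := by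
    intro y hy
    have := h y hy
    rw [inner_sub_right] at this
    have h2 : 0 ≤ ‖y - p‖ ^ 2 := by positivity
    linarith
  have hsup : sSup ((fun y => ⟪x - p, y⟫) '' C) = ⟪x - p, p⟫ := by
    apply le_antisymm
    · refine csSup_le (Set.Nonempty.image _ ⟨p, hp⟩) ?_
      rintro _ ⟨y, hy, rfl⟩
      exact hmax y hy
    · refine le_csSup ⟨⟪x - p, p⟫, ?_⟩ ⟨p, hp, rfl⟩
      rintro _ ⟨y, hy, rfl⟩
      exact hmax y hy
  refine ⟨⟨hp, ?_, ?_⟩, hp, hsup.symm, ?_⟩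
  · intro y hy
    have h1 := hsq y hy
    have h2 : 0 ≤ ‖y - p‖ ^ 2 := by positivity
    exact le_of_sq_le_sq (by linarith) (norm_nonneg _)
  · intro q hq hqmin
    have h1 := hsq q hq
    have h2 := hqmin p hp
    have h3 : ‖x - q‖ ^ 2 ≤ ‖x - p‖ ^ 2 := by gcongr
    have h4 : ‖q - p‖ ^ 2 ≤ 0 := by linarith
    have h5 : ‖q - p‖ = 0 := by nlinarith [norm_nonneg (q - p)]
    exact sub_eq_zero.mp (norm_eq_zero.mp h5)
  · intro y hy hlim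
    rw [hsup] at hlim
    have h0 : Tendsto (fun k => ⟪x - p, p⟫ - ⟪x - p, y k⟫) atTop (𝓝 0) := by
      have h00 : Tendsto (fun k => ⟪x - p, p⟫ - ⟪x - p, y k⟫) atTop
          (𝓝 (⟪x - p, p⟫ - ⟪x - p, p⟫)) := Tendsto.sub tendsto_const_nhds hlim
      rwa [sub_self] at h00
    have h1 : Tendsto (fun k => ‖y k - p‖ ^ 2) atTop (𝓝 0) := by
      have h2 : Tendsto (fun k => 2 * (⟪x - p, p⟫ - ⟪x - p, y k⟫)) atTop (𝓝 0) := by
        simpa using h0.const_mul 2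
      refine squeeze_zero (fun k => by positivity) (fun k => ?_) h2
      have := h (y k) (hy k)
      rw [inner_sub_right] at this
      linarith
    have h3 : Tendsto (fun k => ‖y k - p‖) atTop (𝓝 0) := by
      have h4 : Tendsto (fun k => Real.sqrt (‖y k - p‖ ^ 2)) atTop (𝓝 0) := by
        have h5 := (Real.continuous_sqrt.tendsto 0).comp h1
        rw [Real.sqrt_zero] at h5
        exact h5
      refine h4.congr (fun k => ?_)
      exact Real.sqrt_sq (norm_nonneg _)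
    exact tendsto_iff_norm_sub_tendsto_zero.mpr h3

/-- For any two nonempty compact convex sets in a real Hilbert space there is a point `x` such that
both normals `x - P_{C_i}(x)` strongly expose the projections. -/
theorem result (H : Type*) [NormedAddCommGroup H] [InnerProductSpace ℝ H] [CompleteSpace H]
    (C₁ C₂ : Set H) (h₁ : C₁.Nonempty) (h₂ : C₂.Nonempty) (hc₁ : IsCompact C₁)
    (hc₂ : IsCompact C₂) (hv₁ : Convex ℝ C₁) (hv₂ : Convex ℝ C₂) :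
    ∃ x p₁ p₂ : H, IsProj C₁ x p₁ ∧ IsProj C₂ x p₂ ∧
      StronglyExposes C₁ (x - p₁) p₁ ∧ StronglyExposes C₂ (x - p₂) p₂ := by
  -- maximise ψ(a,b) = ‖a‖² + ‖b‖² + 4⟪a,b⟫ - ... with λ = 2
  let ψ : H × H → ℝ := fun q => (1 / 2 : ℝ) * (‖q.1‖ ^ 2 + ‖q.2‖ ^ 2) + 2 * ⟪q.1, q.2⟫
  have hψ : Continuous ψ := by
    have h1 : Continuous (fun q : H × H => ⟪q.1, q.2⟫) := continuous_fst.inner continuous_snd
    have h2 : Continuous (fun q : H × H => ‖q.1‖ ^ 2 + ‖q.2‖ ^ 2) :=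
      (continuous_fst.norm.pow 2).add (continuous_snd.norm.pow 2)
    exact (continuous_const.mul h2).add (continuous_const.mul h1)
  obtain ⟨⟨a, b⟩, hab, hmax⟩ := (hc₁.prod hc₂).exists_isMaxOn (h₁.prod h₂) hψ.continuousOn
  have ha : a ∈ C₁ := hab.1
  have hb : b ∈ C₂ := hab.2
  refine ⟨(2 : ℝ) • (a + b), a, b, ?_⟩
  have hA : ∀ y ∈ C₁, ⟪(2 : ℝ) • (a + b) - a, y - a⟫ ≤ - ((1 / 2 : ℝ) * ‖y - a‖ ^ 2) := by
    intro y hy
    have h := hmax (Set.mk_mem_prod hy hb)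
    simp only [ψ] at h
    have e1 : y = a + (y - a) := by abel
    have e2 : ‖y‖ ^ 2 = ‖a‖ ^ 2 + 2 * ⟪a, y - a⟫ + ‖y - a‖ ^ 2 := by
      conv_lhs => rw [e1]
      rw [norm_add_sq_real]
    have e3 : ⟪y, b⟫ = ⟪a, b⟫ + ⟪y - a, b⟫ := by
      rw [← inner_add_left]; congr 1
    have e4 : ⟪(2 : ℝ) • (a + b) - a, y - a⟫ = ⟪a, y - a⟫ + 2 * ⟪y - a, b⟫ := by
      have : (2 : ℝ) • (a + b) - a = a + (2 : ℝ) • b := by
        rw [smul_add, two_smul ℝ a]; abel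
      rw [this, inner_add_left, real_inner_smul_left, real_inner_comm (y - a) b]
    rw [e4]
    have h' : (1 / 2 : ℝ) * (‖y‖ ^ 2 + ‖b‖ ^ 2) + 2 * ⟪y, b⟫
        ≤ (1 / 2 : ℝ) * (‖a‖ ^ 2 + ‖b‖ ^ 2) + 2 * ⟪a, b⟫ := h
    rw [e2, e3] at h'
    linarith
  have hB : ∀ y ∈ C₂, ⟪(2 : ℝ) • (a + b) - b, y - b⟫ ≤ - ((1 / 2 : ℝ) * ‖y - b‖ ^ 2) := by
    intro y hy
    have h := hmax (Set.mk_mem_prod ha hy)
    simp only [ψ] at h
    have e1 : y = b + (y - b) := by abel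
    have e2 : ‖y‖ ^ 2 = ‖b‖ ^ 2 + 2 * ⟪b, y - b⟫ + ‖y - b‖ ^ 2 := by
      conv_lhs => rw [e1]
      rw [norm_add_sq_real]
    have e3 : ⟪a, y⟫ = ⟪a, b⟫ + ⟪a, y - b⟫ := by
      rw [← inner_add_right]; congr 1
    have e4 : ⟪(2 : ℝ) • (a + b) - b, y - b⟫ = ⟪b, y - b⟫ + 2 * ⟪a, y - b⟫ := by
      have : (2 : ℝ) • (a + b) - b = b + (2 : ℝ) • a := by
        rw [smul_add, two_smul ℝ b]; abel
      rw [this, inner_add_left, real_inner_smul_left]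
    rw [e4]
    have h' : (1 / 2 : ℝ) * (‖a‖ ^ 2 + ‖y‖ ^ 2) + 2 * ⟪a, y⟫
        ≤ (1 / 2 : ℝ) * (‖a‖ ^ 2 + ‖b‖ ^ 2) + 2 * ⟪a, b⟫ := h
    rw [e2, e3] at h'
    linarith
  obtain ⟨p1, s1⟩ := key C₁ _ a ha hA
  obtain ⟨p2, s2⟩ := key C₂ _ b hb hB
  exact ⟨p1, p2, s1, s2⟩

end Pool.Agent.Results.MP_3684f0_an.ProjectionNormals
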